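import Pool.Agent.Y163.MW.Asm

/-!
# Vectors of wrong weight
-/

set_option autoImplicit false

open Module TensorProduct

namespace Pool.Agent.V7H32.WM

universe u v w

open Pool.Agent.H914 Pool.Agent.Y143 Pool.Agent.Y163.MW Pool.Agent.Y136.UB
open Pool.Agent.Y163.MW.Coh

variable {Ω : Type w} [Field Ω] [CharZero Ω] {R R' R'' : Coh.{v, w} Ω} {q : ℕ}

/-- There is a generalized eigenvector for `α` in degree `m` which is killed by `N ^ (l + 1)` but
not by `N ^ l`. -/
def Str (R : Coh.{v, w} Ω) (m l : ℕ) (α : Ω) : Prop :=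
  ∃ v : R.V, v ∈ R.gr m ∧ v ∈ R.F.maxGenEigenspace α ∧ (R.N ^ (l + 1)) v = 0 ∧ (R.N ^ l) v ≠ 0

/-- Symmetry of the weights in degree `m`. -/
lemma finrank_exc_neg [IsAlgClosed Ω] (hq : 1 < q) (hR : R.IsCoh q) (m : ℕ) (c : ℤ) :
    finrank Ω (R.exc q m c) = finrank Ω (R.exc q m (-c)) := by
  have := hR.finite
  have key : ∀ c : ℤ, finrank Ω (R.exc q m c) ≤ finrank Ω (R.exc q m (-c)) := by
    intro c
    obtain ⟨B, hB⟩ := hR.dual
    have hB0 : ∀ x, (∀ y, B x y = 0) → x = 0 := hB.nondeg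
    have hB1 : ∀ m m' x y, x ∈ R.gr m → y ∈ R.gr m' → m ≠ m' → B x y = 0 := hB.orth
    have hB2 : ∀ m x y, x ∈ R.gr m → y ∈ R.gr m → B (R.F x) (R.F y) = (q : Ω) ^ m * B x y :=
      hB.frob
    let φ : R.exc q m c →ₗ[Ω] Module.Dual Ω (R.exc q m (-c)) :=
      { toFun := fun x => (B x).comp (R.exc q m (-c)).subtype
        map_add' := fun x y => by ext z; simp
        map_smul' := fun a x => by ext z; simp }
    have hφ : Function.Injective φ := by
      rw [← LinearMap.ker_eq_bot, LinearMap.ker_eq_bot']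
      intro x hx
      apply Subtype.ext
      apply hB0
      have h1 : ∀ m' c', ∀ y ∈ R.exc q m' c', B x y = 0 := by
        intro m' c' y hy
        by_cases hm : m' = m
        · subst hm
          by_cases hc : c' = -c
          · subst hc
            exact DFunLike.congr_fun hx ⟨y, hy⟩
          · have h2 : R.exc q m' c ≤ LinearMap.ker (B.flip y) := by
              refine iSup₂_le fun α hα z hz => ?_
              rw [LinearMap.mem_ker, LinearMap.flip_apply]
              have h4 : R.exc q m' c' ≤ LinearMap.ker (B z) := by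
                refine iSup₂_le fun β hβ t ht => ?_
                rw [LinearMap.mem_ker]
                refine gen_orth (hR.F_gr m') (hB2 m') ?_ (Submodule.mem_inf.1 hz).1
                  (Submodule.mem_inf.1 ht).1 (Submodule.mem_inf.1 hz).2
                  (Submodule.mem_inf.1 ht).2
                intro h5
                have h6 := weil_mul (by omega) hα hβ
                rw [h5] at h6
                have h7 := weil_unique hq h6 (weil_natPow (by omega) m')
                omega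
              exact LinearMap.mem_ker.1 (h4 hy)
            exact LinearMap.mem_ker.1 (h2 x.2)
        · exact hB1 m m' x y (exc_le m c x.2) (exc_le m' c' hy) (Ne.symm hm)
      intro y
      have h8 : (⊤ : Submodule Ω R.V) ≤ LinearMap.ker (B x) := by
        rw [← hR.isInternal.submodule_iSup_eq_top]
        refine iSup_le fun m' => ?_
        rw [← iSup_exc hR m']
        exact iSup_le fun c' y hy => LinearMap.mem_ker.2 (h1 m' c' y hy)
      exact LinearMap.mem_ker.1 (h8 (Submodule.mem_top))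
    have := LinearMap.finrank_le_finrank_of_injective hφ
    rwa [Subspace.dual_finrank_eq] at this
  apply le_antisymm (key c)
  have := key (-c)
  rwa [neg_neg] at this

lemma N_pow_exc (hq : 1 < q) (hR : R.IsCoh q) (m k : ℕ) (c : ℤ) :
    ∀ x ∈ R.exc q m c, (R.N ^ k) x ∈ R.exc q m (c - 2 * k) := by
  induction k generalizing c with
  | zero => intro x hx; simpa using hx
  | succ k ih =>
    intro x hx
    rw [pow_succ', Module.End.mul_apply]
    have := N_exc hq hR m _ _ (ih c x hx)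
    rwa [show c - 2 * (k : ℤ) - 2 = c - 2 * ((k + 1 : ℕ) : ℤ) by push_cast; ring] at this

/-- `H^m` is pure as soon as `N ^ a` is injective on the part of excess `a` for all `a > 0`. -/
lemma pure_of_inj [IsAlgClosed Ω] (hq : 1 < q) (hR : R.IsCoh q) (m : ℕ)
    (h : ∀ a : ℕ, 0 < a → ∀ x ∈ R.exc q m a, (R.N ^ a) x = 0 → x = 0) : R.MWPure q m := by
  have := hR.finite
  rw [mwPure_iff hq hR]
  intro a
  have hinj : ∀ x ∈ R.exc q m a, (R.N ^ a) x = 0 → x = 0 := by
    intro x hx h0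
    rcases Nat.eq_zero_or_pos a with rfl | ha
    · simpa using h0
    · exact h a ha x hx h0
  refine ⟨hinj, fun y hy => ?_⟩
  have hmap : ∀ x ∈ R.exc q m a, (R.N ^ a) x ∈ R.exc q m (-(a : ℤ)) := by
    intro x hx
    have := N_pow_exc hq hR m a a x hx
    rwa [show (a : ℤ) - 2 * (a : ℤ) = -a by ring] at this
  let f : R.exc q m a →ₗ[Ω] R.exc q m (-(a : ℤ)) := (R.N ^ a).restrict hmap
  have hf : Function.Injective f := by
    rw [← LinearMap.ker_eq_bot, LinearMap.ker_eq_bot']
    intro x hx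
    apply Subtype.ext
    exact hinj x x.2 (congrArg Subtype.val hx)
  have hs : Function.Surjective f :=
    (LinearMap.injective_iff_surjective_of_finrank_eq_finrank (finrank_exc_neg hq hR m a)).1 hf
  obtain ⟨x, hx⟩ := hs ⟨y, hy⟩
  exact ⟨x, x.2, congrArg Subtype.val hx⟩

/-- `N` maps generalized eigenvectors for `α` to generalized eigenvectors for `α / q`. -/
lemma gen_N (hq : 1 < q) (hR : R.IsCoh q) {α : Ω} {y : R.V} (h2 : y ∈ R.F.maxGenEigenspace α) :
    R.N y ∈ R.F.maxGenEigenspace ((q : Ω)⁻¹ * α) := by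
  have hq0 : (q : Ω) ≠ 0 := Nat.cast_ne_zero.2 (by omega)
  have h4 : y ∈ ((q : Ω)⁻¹ • R.F).maxGenEigenspace ((q : Ω)⁻¹ * α) := by
    obtain ⟨k, hk⟩ := mem_gen.1 h2
    refine mem_gen.2 ⟨k, ?_⟩
    have e : (q : Ω)⁻¹ • R.F - algebraMap Ω (Module.End Ω R.V) ((q : Ω)⁻¹ * α) =
        (q : Ω)⁻¹ • (R.F - algebraMap Ω (Module.End Ω R.V) α) := by
      ext z
      simp only [LinearMap.sub_apply, LinearMap.smul_apply, Module.algebraMap_end_apply,
        smul_sub, smul_smul]
    rw [e, smul_pow, LinearMap.smul_apply, hk, smul_zero]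
  refine gen_map R.N (fun z => ?_) h4
  rw [LinearMap.smul_apply, map_smul, hR.N_F, smul_smul, inv_mul_cancel₀ hq0, one_smul]

lemma gen_N_pow (hq : 1 < q) (hR : R.IsCoh q) {α : Ω} {y : R.V}
    (h2 : y ∈ R.F.maxGenEigenspace α) (k : ℕ) :
    (R.N ^ k) y ∈ R.F.maxGenEigenspace (((q : Ω)⁻¹) ^ k * α) := by
  induction k with
  | zero => simpa using h2
  | succ k ih =>
    have e : (R.N ^ (k + 1)) y = R.N ((R.N ^ k) y) := by rw [pow_succ', Module.End.mul_apply]
    have := gen_N hq hR ih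
    rw [← mul_assoc, ← pow_succ'] at this
    rw [e]
    exact this

lemma gr_N_pow (hR : R.IsCoh q) {m : ℕ} {y : R.V} (h : y ∈ R.gr m) (k : ℕ) :
    (R.N ^ k) y ∈ R.gr m := by
  induction k with
  | zero => simpa using h
  | succ k ih =>
    rw [pow_succ', Module.End.mul_apply]
    exact hR.N_gr m _ ih

omit [CharZero Ω] in
/-- From a vector killed by a power of `N` to a string. -/
lemma str_of_pow {m c : ℕ} {α : Ω} {v : R.V} (h1 : v ∈ R.gr m)
    (h2 : v ∈ R.F.maxGenEigenspace α) (h0 : v ≠ 0) (hN : (R.N ^ c) v = 0) :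
    ∃ l, l < c ∧ Str R m l α := by
  classical
  have hex : ∃ k, (R.N ^ k) v = 0 := ⟨c, hN⟩
  obtain ⟨k, hk⟩ : ∃ k, k = Nat.find hex := ⟨_, rfl⟩
  have hk0 : (R.N ^ k) v = 0 := hk ▸ Nat.find_spec hex
  have hkc : k ≤ c := hk ▸ Nat.find_min' hex hN
  rcases Nat.eq_zero_or_pos k with h | h
  · subst h
    exact absurd (by simpa using hk0) h0
  · obtain ⟨l, rfl⟩ : ∃ l, k = l + 1 := ⟨k - 1, by omega⟩
    exact ⟨l, by omega, v, h1, h2, hk0, Nat.find_min hex (by omega)⟩

/-- If `H^m` is not pure, there is a string of length less than its excess. -/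
lemma exists_bad [IsAlgClosed Ω] (hq : 1 < q) (hR : R.IsCoh q) {m : ℕ} (h : ¬ R.MWPure q m) :
    ∃ (c l : ℕ) (α : Ω), l < c ∧ IsWeilNumber q (m + c) α ∧ Str R m l α := by
  classical
  have h1 : ∃ a : ℕ, 0 < a ∧ ∃ x ∈ R.exc q m a, (R.N ^ a) x = 0 ∧ x ≠ 0 := by
    by_contra hcon
    push Not at hcon
    exact h (pure_of_inj hq hR m hcon)
  obtain ⟨a, ha, x, hx, hNx, hx0⟩ := h1
  have hq0 : (q : Ω) ≠ 0 := Nat.cast_ne_zero.2 (by omega)
  -- decompose `x` into generalized eigenvectors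
  have h2 : R.exc q m a = ⨆ (α : {α : Ω // IsWeilNumber q (m + (a : ℤ)) α}), R.pc (m, α.1) := by
    rw [iSup_subtype]
    rfl
  rw [h2] at hx
  obtain ⟨f, hf, hfx⟩ := (Submodule.mem_iSup_iff_exists_finsupp _ _).1 hx
  have hsum : ∑ i ∈ f.support, (R.N ^ a) (f i) = 0 := by
    rw [← map_sum]
    rw [Finsupp.sum] at hfx
    rw [hfx, hNx]
  have hind : iSupIndep (fun i : {α : Ω // IsWeilNumber q (m + (a : ℤ)) α} =>
      R.pc (m, ((q : Ω)⁻¹) ^ a * i.1)) := by
    refine (indep_pc hR).comp (f := fun i : {α : Ω // IsWeilNumber q (m + (a : ℤ)) α} =>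
      (m, ((q : Ω)⁻¹) ^ a * i.1)) ?_
    intro i j hij
    have := (Prod.mk.inj hij).2
    exact Subtype.ext (mul_left_cancel₀ (pow_ne_zero _ (inv_ne_zero hq0)) this)
  rw [iSupIndep_iff_finsetSum_eq_zero_imp_eq_zero] at hind
  have hz := hind f.support (fun i => (R.N ^ a) (f i)) (fun i _ => by
    refine Submodule.mem_inf.2 ⟨gr_N_pow hR (Submodule.mem_inf.1 (hf i)).1 a, ?_⟩
    exact gen_N_pow hq hR (Submodule.mem_inf.1 (hf i)).2 a) hsum
  have hex : ∃ i ∈ f.support, f i ≠ 0 := by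
    by_contra hcon
    push Not at hcon
    apply hx0
    rw [← hfx, Finsupp.sum]
    exact Finset.sum_eq_zero hcon
  obtain ⟨i, hi, hi0⟩ := hex
  obtain ⟨l, hl, hs⟩ := str_of_pow (R := R) (Submodule.mem_inf.1 (hf i)).1
    (Submodule.mem_inf.1 (hf i)).2 hi0 (hz i hi)
  exact ⟨a, l, i.1, hl, i.2, hs⟩

end Pool.Agent.V7H32.WM
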