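import Pool.Agent.Y163.MW.Defs

/-!
# The Hyodo-Kato cohomology of the varieties over the finite extensions of a `p`-adic field
-/

set_option autoImplicit false

open Module TensorProduct CategoryTheory CategoryTheory.Limits AlgebraicGeometry

namespace Pool.Agent.V7H32.WM

universe u v w

open Pool.Agent.H914 Pool.Agent.Y143 Pool.Agent.Y163.MW

/-- `T' (e x) = e (T x)`. -/
def Intertwines {Ω : Type w} [Field Ω] {V V' : Type v} [AddCommGroup V] [Module Ω V]
    [AddCommGroup V'] [Module Ω V'] (e : V ≃ₗ[Ω] V') (T : Module.End Ω V)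
    (T' : Module.End Ω V') : Prop := ∀ x, T' (e x) = e (T x)

/-- `e` maps the subspace `S` to the subspace `S'`. -/
def MapsSub {Ω : Type w} [Field Ω] {V V' : Type v} [AddCommGroup V] [Module Ω V]
    [AddCommGroup V'] [Module Ω V'] (e : V ≃ₗ[Ω] V') (S : Submodule Ω V)
    (S' : Submodule Ω V') : Prop := ∀ x ∈ S, e x ∈ S'

/-- The comparison `e` of the cohomology of a variety and of its base change to an extension with
residue degree `n`: an isomorphism which respects the degrees; the Frobenius of the base change is
the `n`-th power, and the monodromy operator is multiplied by a nonzero number `c` (which depends on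
the ramification index). -/
structure IsBaseChange {Ω : Type w} [Field Ω] (n : ℕ) (R R' : Coh.{v, w} Ω)
    (e : R.V ≃ₗ[Ω] R'.V) (c : Ω) : Prop where
  ne : c ≠ 0
  degree : ∀ m, MapsSub e (R.gr m) (R'.gr m)
  frobenius : Intertwines e (R.F ^ n) R'.F
  mon : Intertwines e (c • R.N) R'.N

/-- The base change of a variety along an extension of fields. -/
noncomputable def bc {k k' : Type u} [Field k] [Field k'] (f : k →+* k') (X : SmVar.{u} k) :
    SmVar.{u} k' where
  X := pullback X.str (Spec.map (CommRingCat.ofHom f))
  str := pullback.snd X.str (Spec.map (CommRingCat.ofHom f))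
  dim := X.dim
  smooth := by
    have h0 : MorphismProperty.IsStableUnderBaseChange (@SmoothOfRelativeDimension.{u} X.dim) :=
      smoothOfRelativeDimension_isStableUnderBaseChange X.dim
    exact h0.of_isPullback (IsPullback.of_hasPullback X.str (Spec.map (CommRingCat.ofHom f)))
      X.smooth
  proper := inferInstance
  irred := inferInstance

/-- The finite extensions of `K`. -/
structure FinExt (K : Type u) [Field K] where
  /-- the field -/
  fld : Type u
  [field : Field fld]
  [algebra : Algebra K fld]
  [finite : FiniteDimensional K fld]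

attribute [instance] FinExt.field FinExt.algebra FinExt.finite

/-- Embeddings over `K`. -/
abbrev Emb {K : Type u} [Field K] (L L' : FinExt K) : Type u := L.fld →ₐ[K] L'.fld

/-- Varieties over the finite extensions of `K`. -/
abbrev Var {K : Type u} [Field K] (L : FinExt K) : Type (u + 1) := SmVar.{u} L.fld

/-- The product `X × E × ... × E` with `r` factors `E`. -/
noncomputable def timesPow {k : Type u} [Field k] (X E : SmVar.{u} k) : ℕ → SmVar.{u} k
  | 0 => X
  | r + 1 => (timesPow X E r).prod E

/-- `q L` is the number of elements of the residue field of the finite extension `L` of `K`, `P` is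
a class of smooth proper varieties over these fields (for example the smooth projective varieties),
and `H L X` is the Hyodo-Kato cohomology of `X` with coefficients extended to the algebraically
closed field `Ω`, with its linear Frobenius operator `F` and the monodromy operator `N`. -/
structure HKData (K : Type u) [Field K] (Ω : Type w) [Field Ω] where
  /-- the number of elements of the residue field -/
  q : FinExt K → ℕ
  /-- the class of varieties -/
  P : ∀ L : FinExt K, Var L → Prop
  /-- the cohomology -/
  H : ∀ L : FinExt K, Var L → Coh.{v, w} Ω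

section

variable {K : Type u} [Field K] {Ω : Type w} [Field Ω] [CharZero Ω] (D : HKData.{u, v, w} K Ω)
  (L : FinExt K)

/-- `x` is a nonzero vector of degree `m`, an eigenvector of `F` for the eigenvalue `c`, and
`N x = y`. -/
def IsVec {Ω : Type w} [Field Ω] (R : Coh.{v, w} Ω) (m : ℕ) (c : Ω) (x y : R.V) : Prop :=
  x ∈ R.gr m ∧ x ≠ 0 ∧ R.F x = c • x ∧ R.N x = y

/-- The curve `E` over `L` has the cohomology of a Tate curve (with the residue field with `q`
elements): `H^0`, `H^1`, `H^2` contain nonzero vectors `f₀`, `e₀`, `e₁`, `f₂`, eigenvectors of the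
Frobenius operator for `1`, `1`, `q`, `q`, such that `N e₁ = e₀`; the others are killed by `N`. -/
structure IsTateCurve (E : Var L) : Prop where
  mem : D.P L E
  dim : E.dim = 1
  pure : ∀ m, (D.H L E).MWPure (D.q L) m
  zero : ∃ f₀, IsVec (D.H L E) 0 1 f₀ 0
  one : ∃ e₀ e₁, IsVec (D.H L E) 1 1 e₀ 0 ∧ IsVec (D.H L E) 1 (D.q L) e₁ e₀
  two : ∃ f₂, IsVec (D.H L E) 2 (D.q L) f₂ 0

/-- The cohomology of `A` is as for a variety with good reduction: `N = 0`, and `H^m` has weight
`m`. -/
structure IsGood (A : Var L) : Prop where
  mem : D.P L A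
  monodromy : (D.H L A).N = 0
  pure : ∀ m, (D.H L A).MWPure (D.q L) m

/-- `α` is an eigenvalue of the Frobenius operator on `H^m(X)`. -/
def IsEigenvalue (X : Var L) (m : ℕ) (α : Ω) : Prop :=
  ∃ x y, IsVec (D.H L X) m α x y

/-- Comparison of the cohomology of a variety over `L` and of its base change to `L'`; `n` is the
residue degree. -/
def BaseChange (D : HKData.{u, v, w} K Ω) : Prop :=
  ∀ (L L' : FinExt K) (f : Emb L L'), ∃ n : ℕ, n ≠ 0 ∧ D.q L' = D.q L ^ n ∧
    ∀ X : Var L, D.P L X → ∃ e c, IsBaseChange n (D.H L X)
      (D.H L' (bc f.toRingHom X)) e c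

/-- The theorem of Honda and Tate with the theorem of Shimura and Taniyama: some power of a Frobenius
eigenvalue `α` on `H^m(X)` multiplied by a Frobenius eigenvalue `γ` of weight `a` on `H^a(A)`, for a
variety `A` with good reduction over a finite extension (a product of abelian varieties of CM type),
is a power of the number of elements of the residue field. -/
def HondaTate (D : HKData.{u, v, w} K Ω) : Prop :=
  ∀ (L : FinExt K) (X : Var L) (m : ℕ) (α : Ω), D.P L X → IsEigenvalue D L X m α →
    ∃ L' : FinExt K, Nonempty (Emb L L') ∧ ∃ n : ℕ, D.q L' = D.q L ^ n ∧ ∃ A, IsGood D L' A ∧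
      ∃ (a b : ℕ) (γ : Ω), IsEigenvalue D L' A a γ ∧ IsWeilNumber (D.q L') a γ ∧
        α ^ n * γ = (D.q L' : Ω) ^ b

/-- The known properties. -/
structure HKData.IsKnown (D : HKData.{u, v, w} K Ω) : Prop where
  one_lt : ∀ L, 1 < D.q L
  prod : ∀ L X Y, D.P L X → D.P L Y → D.P L (X.prod Y)
  bc : ∀ (L L' : FinExt K) (f : Emb L L') (X : Var L), D.P L X →
    D.P L' (bc f.toRingHom X)
  coh : ∀ L X, D.P L X → (D.H L X).IsCoh (D.q L)
  kunneth : ∀ L X Y, D.P L X → D.P L Y →
    ∃ κ, IsKunneth (D.H L X) (D.H L Y) (D.H L (X.prod Y)) κ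
  baseChange : BaseChange D
  tate : ∀ L, ∃ E, IsTateCurve D L E
  hondaTate : HondaTate D

/-- `w` is a weight of the Frobenius operator on the kernel of `N` in `H^m(X)`. -/
def KerWeight (X : Var L) (m : ℕ) (w : ℤ) : Prop :=
  ∃ α x, IsVec (D.H L X) m α x 0 ∧ IsWeilNumber (D.q L) w α

/-- There is a nonzero `x` in `H^m(X)` with `N x = 0` and `F x = q ^ b x`. -/
def HasTateClass (X : Var L) (m b : ℕ) : Prop :=
  ∃ x, IsVec (D.H L X) m ((D.q L : Ω) ^ b) x 0

/-- The weight-monodromy conjecture for all the cohomology groups of `X`. -/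
def WeightMonodromy (X : Var L) : Prop := ∀ m, (D.H L X).MWPure (D.q L) m

/-- For all `m` the weights on the kernel of `N` in `H^m(X)` are at most `m`. -/
def LowWeights (X : Var L) : Prop := ∀ (m : ℕ) (w : ℤ), KerWeight D L X m w → w ≤ m

/-- There is no `x ≠ 0` in `H^(2 b - 1)(X)` with `N x = 0` and `F x = q ^ b x`, for any `b`. -/
def NoTate (X : Var L) : Prop := ∀ m b : ℕ, m + 1 = 2 * b → ¬ HasTateClass D L X m b

/-- There is no `x ≠ 0` in `H^d(X)`, `d = dim X = 2 b - 1`, with `N x = 0` and `F x = q ^ b x` (a
condition only if `d` is odd). -/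
def NoMiddleTate (X : Var L) : Prop :=
  ∀ b : ℕ, X.dim + 1 = 2 * b → ¬ HasTateClass D L X X.dim b

/-- The variety `X × E × ... × E × A` over `L'`, with `r` factors `E`, where the variety `X` over `L`
is considered over `L'`. -/
noncomputable def mixed {K : Type u} [Field K] {L L' : FinExt K} (f : Emb L L')
    (X : Var L) (E A : Var L') (r : ℕ) : Var L' :=
  (timesPow (bc f.toRingHom X) E r).prod A

/-- The condition `Q` holds for all products `X × E^r × A` over finite extensions `L'` of `L`, with a
Tate curve `E` and a variety `A` with good reduction over `L'`. -/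
def ForMixed (Q : ∀ L' : FinExt K, Var L' → Prop) (X : Var L) : Prop :=
  ∀ (L' : FinExt K) (f : Emb L L') (E A : Var L'), IsTateCurve D L' E →
    IsGood D L' A → ∀ r : ℕ, Q L' (mixed f X E A r)

end

end Pool.Agent.V7H32.WM
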