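import Pool.Agent.V7H32.WM.Pure

/-!
# Criteria for the weight-monodromy conjecture
-/

set_option autoImplicit false

open Module TensorProduct CategoryTheory CategoryTheory.Limits AlgebraicGeometry

namespace Pool.Agent.V7H32.WM

universe u v w

open Pool.Agent.H914 Pool.Agent.Y143 Pool.Agent.Y163.MW

variable {K : Type u} [Field K] {Ω : Type w} [Field Ω] [CharZero Ω] {D : HKData.{u, v, w} K Ω}
  {L : FinExt K}

lemma timesPow_mem (hD : D.IsKnown) {X E : Var L} (hX : D.P L X) (hE : D.P L E) (r : ℕ) :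
    D.P L (timesPow X E r) := by
  induction r with
  | zero => exact hX
  | succ r ih => exact hD.prod L _ _ ih hE

lemma timesPow_dim {X E : Var L} (hE : E.dim = 1) (r : ℕ) :
    (timesPow X E r).dim = X.dim + r := by
  induction r with
  | zero => rfl
  | succ r ih =>
    change (timesPow X E r).dim + E.dim = _
    omega

lemma pow_mem (hD : D.IsKnown) {X : Var L} (hX : D.P L X) (n : ℕ) :
    D.P L (Y163.MW.pow X n) := by
  induction n with
  | zero => exact hX
  | succ n ih => exact hD.prod L _ _ hX ih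

/-- The products with the powers of a Tate curve shorten a string. -/
lemma chain (hD : D.IsKnown) {X E : Var L} (hX : D.P L X) (hE : IsTateCurve D L E)
    {m l : ℕ} {α : Ω} (h : Str (D.H L X) m l α) (r : ℕ) :
    Str (D.H L (timesPow X E r)) (m + r) (l - r) α := by
  induction r with
  | zero => exact h
  | succ r ih =>
    obtain ⟨κ, hκ⟩ := hD.kunneth L (timesPow X E r) E (timesPow_mem hD hX hE.mem r) hE.mem
    obtain ⟨e₀, e₁, ⟨g0, hne, f0, h0⟩, g1, -, f1, h1⟩ := hE.one
    rw [one_smul] at f0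
    rcases Nat.eq_zero_or_pos (l - r) with hl | hl
    · rw [hl] at ih
      have := Str.mul_inv hκ g0 hne (by rw [f0, one_smul]) h0 (γ := 1) ih
      rw [mul_one] at this
      rw [show l - (r + 1) = 0 by omega]
      exact this
    · obtain ⟨l', hl'⟩ : ∃ l', l - r = l' + 1 := ⟨l - r - 1, by omega⟩
      rw [hl'] at ih
      have := Str.tate hκ (hD.one_lt L) (hD.coh L _ (timesPow_mem hD hX hE.mem r)) g0 g1 hne f0 f1
        h0 h1 ih
      rw [show l - (r + 1) = l' by omega]
      exact this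

/-- The products with the powers of a Tate curve change the degree relative to the dimension. -/
lemma adjust (hD : D.IsKnown) {X E : Var L} (hX : D.P L X) (hE : IsTateCurve D L E)
    (δ : ℤ) : ∀ (j r n : ℕ) (α : Ω), ((n : ℤ) - (X.dim + r) - δ).natAbs = j →
      Str (D.H L (timesPow X E r)) n 0 α → ∃ r' t : ℕ,
        Str (D.H L (timesPow X E r')) (n + 2 * t) 0 (α * (D.q L : Ω) ^ t) ∧
        ((n + 2 * t : ℕ) : ℤ) = X.dim + r' + δ := by
  intro j
  induction j with
  | zero =>
    intro r n α hj h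
    refine ⟨r, 0, ?_, ?_⟩
    · rw [pow_zero, mul_one]
      exact h
    · have := Int.natAbs_eq_zero.1 hj
      push_cast
      omega
  | succ j ih =>
    intro r n α hj h
    obtain ⟨κ, hκ⟩ := hD.kunneth L (timesPow X E r) E (timesPow_mem hD hX hE.mem r) hE.mem
    rcases le_or_gt ((n : ℤ) - (X.dim + r) - δ) 0 with hs | hs
    · obtain ⟨f₂, g2, hne, ff, h2⟩ := hE.two
      have h3 := Str.mul_inv hκ g2 hne ff h2 h
      obtain ⟨r', t, ht, ht'⟩ := ih (r + 1) (n + 2) (α * (D.q L : Ω)) (by push_cast; omega) h3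
      refine ⟨r', t + 1, ?_, ?_⟩
      · rw [show n + 2 * (t + 1) = n + 2 + 2 * t by ring, pow_succ', ← mul_assoc]
        exact ht
      · rw [← ht']
        push_cast
        ring
    · obtain ⟨f₀, g0, hne, ff, h0⟩ := hE.zero
      rw [one_smul] at ff
      have h3 := Str.mul_inv hκ g0 hne (by rw [ff, one_smul]) h0 (γ := 1) h
      rw [mul_one] at h3
      exact ih (r + 1) n α (by push_cast; omega) h3

/-- Powers of even order. -/
lemma even_powers (hD : D.IsKnown) {X : Var L} (hX : D.P L X) {m l c : ℕ} {α : Ω}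
    (h : Str (D.H L X) m l α) (hw : IsWeilNumber (D.q L) (m + c) α) (j : ℕ) :
    ∃ β : Ω, Str (D.H L (Y163.MW.pow X (2 * j + 1))) ((2 * j + 2) * m) 0 β ∧
      IsWeilNumber (D.q L) ((2 * j + 2) * (m + c - l)) β := by
  have hq := hD.one_lt L
  have hq0 : D.q L ≠ 0 := by omega
  have hinv : IsWeilNumber (D.q L) (-2 * (l : ℤ)) ((D.q L : Ω)⁻¹ ^ l) := by
    have h1 := (IsWeilNumber.one (Ω := Ω) (D.q L)).twist hq0 (-(l : ℤ))
    rw [mul_one, zero_add, zpow_neg, zpow_natCast, ← inv_pow] at h1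
    rwa [show (-2 : ℤ) * l = 2 * -(l : ℤ) by ring]
  induction j with
  | zero =>
    obtain ⟨κ, hκ⟩ := hD.kunneth L X X hX hX
    have h1 := Str.pair hκ hq (hD.coh L X hX) (hD.coh L X hX) h h
    rw [show m + m = (2 * 0 + 2) * m by ring] at h1
    refine ⟨_, h1, ?_⟩
    have h2 := weil_mul (by omega) hinv (weil_mul (by omega) hw hw)
    convert h2 using 1
    push_cast
    ring
  | succ j ih =>
    obtain ⟨β, hβ, hwβ⟩ := ih
    have hY := pow_mem hD hX (2 * j + 1)
    obtain ⟨κ, hκ⟩ := hD.kunneth L X (Y163.MW.pow X (2 * j + 1)) hX hY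
    obtain ⟨z, hz, hz0, hNz, hFz⟩ := Str.eigen (hD.coh L _ hY) hβ
    have h1 := Str.mul_inv hκ hz hz0 hFz hNz h
    obtain ⟨κ', hκ'⟩ := hD.kunneth L X (X.prod (Y163.MW.pow X (2 * j + 1))) hX
      (hD.prod L _ _ hX hY)
    have h2 := Str.pair hκ' hq (hD.coh L X hX) (hD.coh L _ (hD.prod L _ _ hX hY)) h h1
    rw [show m + (m + (2 * j + 2) * m) = (2 * (j + 1) + 2) * m by ring] at h2
    refine ⟨_, h2, ?_⟩
    have h3 := weil_mul (by omega) hinv
      (weil_mul (by omega) hw (weil_mul (by omega) hw hwβ))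
    convert h3 using 1
    push_cast
    ring

lemma kerWeight_le [IsAlgClosed Ω] (hD : D.IsKnown) {X : Var L} (hX : D.P L X)
    (h : WeightMonodromy D L X) {m : ℕ} {w : ℤ} (hw : KerWeight D L X m w) : w ≤ m := by
  obtain ⟨α, x, ⟨hx, hx0, hF, hN⟩, hα⟩ := hw
  exact ker_weight (hD.one_lt L) (hD.coh L X hX) (h m) hx hx0 hN hF hα

lemma wm_prod [IsAlgClosed Ω] (hD : D.IsKnown) {X Y : Var L} (hX : D.P L X)
    (hY : D.P L Y) (h : WeightMonodromy D L X) (h' : WeightMonodromy D L Y) :
    WeightMonodromy D L (X.prod Y) := by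
  obtain ⟨κ, hκ⟩ := hD.kunneth L X Y hX hY
  exact pure_prod (hD.one_lt L) (hD.coh L X hX) (hD.coh L Y hY)
    (hD.coh L _ (hD.prod L X Y hX hY)) hκ h h'

lemma wm_timesPow [IsAlgClosed Ω] (hD : D.IsKnown) {X E : Var L} (hX : D.P L X)
    (hE : D.P L E) (h : WeightMonodromy D L X) (h' : WeightMonodromy D L E) (r : ℕ) :
    WeightMonodromy D L (timesPow X E r) := by
  induction r with
  | zero => exact h
  | succ r ih => exact wm_prod hD (timesPow_mem hD hX hE r) hE ih h'

lemma wm_pow [IsAlgClosed Ω] (hD : D.IsKnown) {X : Var L} (hX : D.P L X)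
    (h : WeightMonodromy D L X) (n : ℕ) : WeightMonodromy D L (Y163.MW.pow X n) := by
  induction n with
  | zero => exact h
  | succ n ih => exact wm_prod hD hX (pow_mem hD hX n) h ih

lemma wm_bc [IsAlgClosed Ω] (hD : D.IsKnown) {L' : FinExt K} (f : Emb L L')
    {X : Var L} (hX : D.P L X) (h : WeightMonodromy D L X) :
    WeightMonodromy D L' (bc f.toRingHom X) := by
  obtain ⟨n, hn, hqn, hall⟩ := hD.baseChange L L' f
  obtain ⟨e, c, hec⟩ := hall X hX
  have hc := hD.coh L' _ (hD.bc L L' f X hX)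
  unfold WeightMonodromy
  rw [hqn] at hc ⊢
  exact pure_baseChange (hD.one_lt L) hn (hD.coh L X hX) hc hec h

/-- A Tate class in the kernel of `N` has weight `2 b`. -/
lemma HasTateClass.kerWeight (hD : D.IsKnown) {X : Var L} {m b : ℕ}
    (h : HasTateClass D L X m b) : KerWeight D L X m (2 * (b : ℤ)) := by
  obtain ⟨x, hx⟩ := h
  have hq := hD.one_lt L
  exact ⟨_, x, hx, weil_natPow (by omega) b⟩

/-- If the conjecture fails for `X`, the products of `X` with powers of a Tate curve have a weight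
on the kernel of `N` in the middle degree which is too large by one. -/
theorem middle_of_fails [IsAlgClosed Ω] (hD : D.IsKnown) {X E : Var L} (hX : D.P L X)
    (hE : IsTateCurve D L E) (h : ¬ WeightMonodromy D L X) :
    ∃ r, KerWeight D L (timesPow X E r) (X.dim + r) (X.dim + r + 1) := by
  have hq := hD.one_lt L
  unfold WeightMonodromy at h
  push Not at h
  obtain ⟨m, hm⟩ := h
  obtain ⟨c, l, α, hlc, hα, hs⟩ := exists_bad hq (hD.coh L X hX) hm
  have h1 := chain hD hX hE hs (c - 1)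
  rw [show l - (c - 1) = 0 by omega] at h1
  obtain ⟨r, t, h2, h3⟩ := adjust hD hX hE 0 _ (c - 1) (m + (c - 1)) α rfl h1
  obtain ⟨x, hx, hx0, hN, hF⟩ := Str.eigen (hD.coh L _ (timesPow_mem hD hX hE.mem r)) h2
  refine ⟨r, _, x, ⟨?_, hx0, hF, hN⟩, ?_⟩
  · rw [show X.dim + r = m + (c - 1) + 2 * t by omega]
    exact hx
  · have h4 := weil_mul (by omega) hα (weil_natPow (q := D.q L) (Ω := Ω) (by omega) t)
    convert h4 using 1
    omega

/-- If the conjecture fails for `X`, there are Tate classes of weight minus one in the kernel of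
`N` in the middle degree, for products of `X`, over a finite extension, with powers of a Tate curve
and a variety with good reduction. -/
theorem tate_of_fails [IsAlgClosed Ω] (hD : D.IsKnown) {X : Var L} (hX : D.P L X)
    (h : ¬ WeightMonodromy D L X) :
    ∃ (L' : FinExt K) (f : Emb L L') (E A : Var L'), IsTateCurve D L' E ∧
      IsGood D L' A ∧ ∃ r b : ℕ,
        ((timesPow (bc f.toRingHom X) E r).prod A).dim + 1 =
          2 * b ∧
        HasTateClass D L'
          ((timesPow (bc f.toRingHom X) E r).prod A)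
          ((timesPow (bc f.toRingHom X) E r).prod A).dim b := by
  have hq := hD.one_lt L
  unfold WeightMonodromy at h
  push Not at h
  obtain ⟨m, hm⟩ := h
  obtain ⟨c, l, α, hlc, hα, hs⟩ := exists_bad hq (hD.coh L X hX) hm
  obtain ⟨x₀, hx₀, hx₀0, hFx₀⟩ := Str.eigen' (hD.coh L X hX) hs
  obtain ⟨L', ⟨f⟩, n, hqn, A, hA, a, b, γ, ⟨z, _, hz, hz0, hFz, -⟩, hγ, hab⟩ :=
    hD.hondaTate L X m α hX ⟨x₀, _, hx₀, hx₀0, hFx₀, rfl⟩
  obtain ⟨n', hn', hqn', hall⟩ := hD.baseChange L L' f
  have hnn : n' = n := Nat.pow_right_injective (by omega) (hqn'.symm.trans hqn)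
  subst hnn
  obtain ⟨e, c', hec⟩ := hall X hX
  have hq' := hD.one_lt L'
  obtain ⟨E, hE⟩ := hD.tate L'
  have hX' := hD.bc L L' f X hX
  have hs' := hs.baseChange hec
  have hα' : IsWeilNumber (D.q L') (m + c) (α ^ n') := by
    rw [hqn]
    exact weil_base hα
  have h1 := chain hD hX' hE hs' (c - 1)
  rw [show l - (c - 1) = 0 by omega] at h1
  obtain ⟨r, t, h2, h3⟩ := adjust hD hX' hE ((A.dim : ℤ) - a) _ (c - 1) (m + (c - 1)) _ rfl h1
  have hXE := timesPow_mem hD hX' hE.mem r
  obtain ⟨κ, hκ⟩ := hD.kunneth L' _ A hXE hA.mem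
  have hNz : (D.H L' A).N z = 0 := by rw [hA.monodromy, LinearMap.zero_apply]
  have h4 := Str.mul_inv hκ hz hz0 hFz hNz h2
  obtain ⟨x, hx, hx0, hN, hF⟩ := Str.eigen (hD.coh L' _ (hD.prod L' _ _ hXE hA.mem)) h4
  have hdim : ((timesPow (bc f.toRingHom X) E r).prod A).dim =
      m + (c - 1) + 2 * t + a := by
    change (timesPow (bc f.toRingHom X) E r).dim + A.dim = _
    rw [timesPow_dim hE.dim]
    omega
  have hw : (m : ℤ) + c + a = 2 * b := by
    have h5 := weil_mul (by omega) hα' hγ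
    rw [hab] at h5
    exact weil_unique hq' h5 (weil_natPow (by omega) b)
  refine ⟨L', f, E, A, hE, hA, r, b + t, ?_, x, ?_, hx0, ?_, hN⟩
  · rw [hdim]
    omega
  · rw [hdim]
    exact hx
  · rw [hF, pow_add, ← hab]
    congr 1
    ring

end Pool.Agent.V7H32.WM
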