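import Pool.Agent.V7H32.WM.Bad

/-!
# Strings in products and base changes
-/

set_option autoImplicit false

open Module TensorProduct

namespace Pool.Agent.V7H32.WM

universe u v w

open Pool.Agent.H914 Pool.Agent.Y143 Pool.Agent.Y163.MW Pool.Agent.Y136.UB
open Pool.Agent.Y163.MW.Coh

section

variable {Ω : Type w} [Field Ω] {V V' : Type v} [AddCommGroup V] [Module Ω V]
  [AddCommGroup V'] [Module Ω V']

lemma tmul_ne {x : V} {y : V'} (hx : x ≠ 0) (hy : y ≠ 0) : x ⊗ₜ[Ω] y ≠ 0 := by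
  obtain ⟨f, hf⟩ : ∃ f : Module.Dual Ω V, f x ≠ 0 := by
    by_contra hcon
    push Not at hcon
    exact hx ((Module.forall_dual_apply_eq_zero_iff Ω x).1 hcon)
  obtain ⟨g, hg⟩ : ∃ g : Module.Dual Ω V', g y ≠ 0 := by
    by_contra hcon
    push Not at hcon
    exact hy ((Module.forall_dual_apply_eq_zero_iff Ω y).1 hcon)
  intro h
  have h1 : TensorProduct.lid Ω Ω (TensorProduct.map f g (x ⊗ₜ[Ω] y)) = 0 := by
    rw [h, map_zero, map_zero]
  rw [TensorProduct.map_tmul, TensorProduct.lid_tmul, smul_eq_mul] at h1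
  exact mul_ne_zero hf hg h1

lemma gen_of_eigen {f : Module.End Ω V} {c : Ω} {x : V} (h : f x = c • x) :
    x ∈ f.maxGenEigenspace c := by
  refine mem_gen.2 ⟨1, ?_⟩
  rw [pow_one, LinearMap.sub_apply, Module.algebraMap_end_apply, h, sub_self]

end

variable {Ω : Type w} [Field Ω] [CharZero Ω] {R R' R'' : Coh.{v, w} Ω} {q : ℕ}

omit [CharZero Ω] in
lemma gen_kunneth {κ : R.V ⊗[Ω] R'.V ≃ₗ[Ω] R''.V} (hκ : IsKunneth R R' R'' κ) {α β : Ω}
    {x : R.V} {y : R'.V} (hx : x ∈ R.F.maxGenEigenspace α) (hy : y ∈ R'.F.maxGenEigenspace β) :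
    κ (x ⊗ₜ y) ∈ R''.F.maxGenEigenspace (α * β) := by
  refine gen_map κ.toLinearMap (fun v => ?_) (gen_tmul hx hy)
  induction v using TensorProduct.induction_on with
  | zero => simp
  | tmul a b => exact hκ.frob a b
  | add a b ha hb => rw [map_add, map_add, map_add, map_add, ha, hb]

omit [CharZero Ω] in
/-- `N` on products with a vector killed by `N`. -/
lemma N_pow_inv {κ : R.V ⊗[Ω] R'.V ≃ₗ[Ω] R''.V} (hκ : IsKunneth R R' R'' κ) {e : R'.V}
    (he : R'.N e = 0) (x : R.V) (k : ℕ) : (R''.N ^ k) (κ (x ⊗ₜ e)) = κ ((R.N ^ k) x ⊗ₜ e) := by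
  induction k with
  | zero => simp
  | succ k ih =>
    have e1 : (R''.N ^ (k + 1)) (κ (x ⊗ₜ e)) = R''.N ((R''.N ^ k) (κ (x ⊗ₜ e))) := by
      rw [pow_succ', Module.End.mul_apply]
    have e2 : (R.N ^ (k + 1)) x = R.N ((R.N ^ k) x) := by rw [pow_succ', Module.End.mul_apply]
    have h := hκ.monodromy ((R.N ^ k) x) e
    simp only [tm] at h
    rw [e1, ih, h, he, TensorProduct.tmul_zero, map_zero, add_zero, e2]

/-- `N` on products with a vector whose image under `N` is killed by `N`. -/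
lemma N_pow_jordan {κ : R.V ⊗[Ω] R'.V ≃ₗ[Ω] R''.V} (hκ : IsKunneth R R' R'' κ) {e₀ e₁ : R'.V}
    (h0 : R'.N e₀ = 0) (h1 : R'.N e₁ = e₀) (x : R.V) (k : ℕ) :
    (R''.N ^ (k + 1)) (κ (x ⊗ₜ e₁)) =
      κ ((R.N ^ (k + 1)) x ⊗ₜ e₁) + ((k : Ω) + 1) • κ ((R.N ^ k) x ⊗ₜ e₀) := by
  induction k with
  | zero =>
    have h := hκ.monodromy x e₁
    simp only [tm] at h
    simp [h, h1]
  | succ k ih =>
    have e1 : (R''.N ^ (k + 1 + 1)) (κ (x ⊗ₜ e₁)) = R''.N ((R''.N ^ (k + 1)) (κ (x ⊗ₜ e₁))) := by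
      rw [pow_succ', Module.End.mul_apply]
    have e2 : ∀ j, (R.N ^ (j + 1)) x = R.N ((R.N ^ j) x) := by
      intro j
      rw [pow_succ', Module.End.mul_apply]
    have ha := hκ.monodromy ((R.N ^ (k + 1)) x) e₁
    have hb := hκ.monodromy ((R.N ^ k) x) e₀
    simp only [tm] at ha hb
    rw [e1, ih, map_add, map_smul, ha, hb, h0, h1, TensorProduct.tmul_zero, map_zero, add_zero,
      ← e2 (k + 1), ← e2 k]
    push_cast
    module

/-- The product with a Tate curve shortens a string and lowers its excess. -/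
lemma Str.tate {κ : R.V ⊗[Ω] R'.V ≃ₗ[Ω] R''.V} (hκ : IsKunneth R R' R'' κ) (hq : 1 < q)
    (hR : R.IsCoh q) {e₀ e₁ : R'.V}
    (g0 : e₀ ∈ R'.gr 1) (g1 : e₁ ∈ R'.gr 1) (hne : e₀ ≠ 0) (f0 : R'.F e₀ = e₀)
    (f1 : R'.F e₁ = (q : Ω) • e₁) (h0 : R'.N e₀ = 0) (h1 : R'.N e₁ = e₀) {m l : ℕ} {α : Ω}
    (h : Str R m (l + 1) α) : Str R'' (m + 1) l α := by
  obtain ⟨v, hv1, hv2, hv3, hv4⟩ := h
  have hq0 : (q : Ω) ≠ 0 := Nat.cast_ne_zero.2 (by omega)
  have hNv : ∀ j, (R.N ^ j) (R.N v) = (R.N ^ (j + 1)) v := by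
    intro j
    rw [pow_succ, Module.End.mul_apply]
  have hlast : (R''.N ^ l) (((l : Ω) + 1) • κ (v ⊗ₜ e₀) - κ (R.N v ⊗ₜ e₁)) =
      κ ((R.N ^ l) v ⊗ₜ e₀) - κ ((R.N ^ (l + 1)) v ⊗ₜ e₁) := by
    rw [map_sub, map_smul, N_pow_inv hκ h0]
    rcases l with _ | k
    · simp
    · rw [N_pow_jordan hκ h0 h1, hNv, hNv]
      push_cast
      module
  refine ⟨((l : Ω) + 1) • κ (v ⊗ₜ e₀) - κ (R.N v ⊗ₜ e₁), ?_, ?_, ?_, ?_⟩
  · refine Submodule.sub_mem _ (Submodule.smul_mem _ _ ?_) ?_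
    · exact hκ.degree m 1 v e₀ hv1 g0
    · exact hκ.degree m 1 _ e₁ (hR.N_gr m v hv1) g1
  · refine Submodule.sub_mem _ (Submodule.smul_mem _ _ ?_) ?_
    · have := gen_kunneth hκ hv2 (gen_of_eigen (f := R'.F) (c := 1) (x := e₀) (by rw [f0, one_smul]))
      rwa [mul_one] at this
    · have := gen_kunneth hκ (gen_N hq hR hv2) (gen_of_eigen f1)
      rwa [show (q : Ω)⁻¹ * α * q = α by field_simp] at this
  · have e1 : ∀ y : R''.V, (R''.N ^ (l + 1)) y = R''.N ((R''.N ^ l) y) := by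
      intro y
      rw [pow_succ', Module.End.mul_apply]
    rw [e1, hlast, map_sub]
    have ha := hκ.monodromy ((R.N ^ l) v) e₀
    have hb := hκ.monodromy ((R.N ^ (l + 1)) v) e₁
    simp only [tm] at ha hb
    have e2 : ∀ j, (R.N ^ (j + 1)) v = R.N ((R.N ^ j) v) := by
      intro j
      rw [pow_succ', Module.End.mul_apply]
    rw [ha, hb, ← e2, ← e2, hv3, h0, h1, TensorProduct.tmul_zero, map_zero, TensorProduct.zero_tmul,
      map_zero, add_zero, zero_add, sub_self]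
  · rw [hlast]
    intro hcon
    rw [← map_sub] at hcon
    have h2 : (R.N ^ l) v ⊗ₜ[Ω] e₀ - (R.N ^ (l + 1)) v ⊗ₜ[Ω] e₁ = 0 := by
      apply κ.injective
      rw [hcon, map_zero]
    have h3 := congrArg (TensorProduct.map (LinearMap.id : R.V →ₗ[Ω] R.V) R'.N) h2
    rw [map_sub, TensorProduct.map_tmul, TensorProduct.map_tmul, h0, h1, TensorProduct.tmul_zero,
      zero_sub, map_zero, neg_eq_zero, LinearMap.id_apply] at h3
    exact tmul_ne hv4 hne h3

/-- The product with an eigenvector killed by `N`. -/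
lemma Str.mul_inv {κ : R.V ⊗[Ω] R'.V ≃ₗ[Ω] R''.V} (hκ : IsKunneth R R' R'' κ) {z : R'.V}
    {a : ℕ} {γ : Ω} (hz : z ∈ R'.gr a) (hz0 : z ≠ 0) (hFz : R'.F z = γ • z) (hNz : R'.N z = 0)
    {m l : ℕ} {α : Ω} (h : Str R m l α) : Str R'' (m + a) l (α * γ) := by
  obtain ⟨v, hv1, hv2, hv3, hv4⟩ := h
  refine ⟨κ (v ⊗ₜ z), hκ.degree m a v z hv1 hz, gen_kunneth hκ hv2 (gen_of_eigen hFz), ?_, ?_⟩
  · rw [N_pow_inv hκ hNz, hv3, TensorProduct.zero_tmul, map_zero]
  · rw [N_pow_inv hκ hNz]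
    intro hcon
    exact tmul_ne hv4 hz0 (κ.injective (by rw [hcon, map_zero]))

/-- Two strings of the same length give a vector killed by `N`. -/
lemma Str.pair {κ : R.V ⊗[Ω] R'.V ≃ₗ[Ω] R''.V} (hκ : IsKunneth R R' R'' κ) (hq : 1 < q)
    (hR : R.IsCoh q) (hR' : R'.IsCoh q) {m m' l : ℕ} {α β : Ω} (h : Str R m l α)
    (h' : Str R' m' l β) : Str R'' (m + m') 0 ((q : Ω)⁻¹ ^ l * (α * β)) := by
  obtain ⟨v, hv1, hv2, hv3, hv4⟩ := h
  obtain ⟨w, hw1, hw2, hw3, hw4⟩ := h'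
  have hq0 : (q : Ω) ≠ 0 := Nat.cast_ne_zero.2 (by omega)
  let T : Module.End Ω (R.V ⊗[Ω] R'.V) := TensorProduct.map R.N LinearMap.id
  let S : Module.End Ω (R.V ⊗[Ω] R'.V) := TensorProduct.map LinearMap.id R'.N
  have hT : ∀ (k : ℕ) (x : R.V) (y : R'.V), (T ^ k) (x ⊗ₜ[Ω] y) = (R.N ^ k) x ⊗ₜ[Ω] y := by
    intro k x y
    induction k generalizing x with
    | zero => simp
    | succ k ih =>
      rw [pow_succ, Module.End.mul_apply, pow_succ, Module.End.mul_apply]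
      rw [show T (x ⊗ₜ[Ω] y) = R.N x ⊗ₜ[Ω] y from by
        simp only [T, TensorProduct.map_tmul, LinearMap.id_apply]]
      exact ih _
  have hS : ∀ (k : ℕ) (x : R.V) (y : R'.V), (S ^ k) (x ⊗ₜ[Ω] y) = x ⊗ₜ[Ω] (R'.N ^ k) y := by
    intro k x y
    induction k generalizing y with
    | zero => simp
    | succ k ih =>
      rw [pow_succ, Module.End.mul_apply, pow_succ, Module.End.mul_apply]
      rw [show S (x ⊗ₜ[Ω] y) = x ⊗ₜ[Ω] R'.N y from by
        simp only [S, TensorProduct.map_tmul, LinearMap.id_apply]]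
      exact ih _
  have hcomm : Commute T S := by
    apply LinearMap.ext
    intro z
    induction z using TensorProduct.induction_on with
    | zero => simp
    | tmul x y => simp [T, S]
    | add x y hx hy => rw [map_add, map_add, hx, hy]
  have hcomm' : Commute (-T) S := hcomm.neg_left
  have hN : ∀ z, R''.N (κ z) = κ ((T + S) z) := by
    intro z
    induction z using TensorProduct.induction_on with
    | zero => simp
    | tmul x y =>
      have := hκ.monodromy x y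
      simp only [tm] at this
      rw [this, ← map_add]
      simp [T, S]
    | add x y hx hy => rw [map_add, map_add, map_add, map_add, hx, hy]
  obtain ⟨G, hG⟩ : ∃ G : Module.End Ω (R.V ⊗[Ω] R'.V),
      G = ∑ i ∈ Finset.range (l + 1), (-T) ^ i * S ^ (l + 1 - 1 - i) := ⟨_, rfl⟩
  have hmul : (T + S) * G = S ^ (l + 1) - (-T) ^ (l + 1) := by
    have := hcomm'.mul_geom_sum₂ (l + 1)
    rw [← hG] at this
    apply LinearMap.ext
    intro z
    have h1 := LinearMap.congr_fun this z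
    rw [Module.End.mul_apply, LinearMap.sub_apply, LinearMap.neg_apply, LinearMap.sub_apply] at h1
    rw [Module.End.mul_apply, LinearMap.add_apply, LinearMap.sub_apply, ← neg_inj, neg_sub, ← h1]
    abel
  have hnegT : ∀ (k : ℕ) (z : R.V ⊗[Ω] R'.V), ((-T) ^ k) z = (-1 : Ω) ^ k • (T ^ k) z := by
    intro k z
    have : -T = (-1 : Ω) • T := by
      apply LinearMap.ext
      intro y
      rw [LinearMap.neg_apply, LinearMap.smul_apply, neg_smul, one_smul]
    rw [this, smul_pow, LinearMap.smul_apply]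
  have hterm : ∀ i, ((-T) ^ i * S ^ (l + 1 - 1 - i)) (v ⊗ₜ[Ω] w) =
      (-1 : Ω) ^ i • ((R.N ^ i) v ⊗ₜ[Ω] (R'.N ^ (l - i)) w) := by
    intro i
    rw [Module.End.mul_apply, hS, hnegT, hT, Nat.add_sub_cancel]
  have hGv : G (v ⊗ₜ[Ω] w) = ∑ i ∈ Finset.range (l + 1),
      (-1 : Ω) ^ i • ((R.N ^ i) v ⊗ₜ[Ω] (R'.N ^ (l - i)) w) := by
    rw [hG, LinearMap.sum_apply]
    exact Finset.sum_congr rfl fun i _ => hterm i
  refine ⟨κ (G (v ⊗ₜ[Ω] w)), ?_, ?_, ?_, ?_⟩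
  · rw [hGv, map_sum]
    refine Submodule.sum_mem _ fun i _ => ?_
    rw [map_smul]
    exact Submodule.smul_mem _ _ (hκ.degree m m' _ _ (gr_N_pow hR hv1 i) (gr_N_pow hR' hw1 _))
  · rw [hGv, map_sum]
    refine Submodule.sum_mem _ fun i hi => ?_
    rw [map_smul]
    refine Submodule.smul_mem _ _ ?_
    have := gen_kunneth hκ (gen_N_pow hq hR hv2 i) (gen_N_pow hq hR' hw2 (l - i))
    rwa [show (q : Ω)⁻¹ ^ i * α * ((q : Ω)⁻¹ ^ (l - i) * β) = (q : Ω)⁻¹ ^ l * (α * β) by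
      have hi' : i ≤ l := by have := Finset.mem_range.1 hi; omega
      rw [show l = i + (l - i) by omega, pow_add]
      rw [show i + (l - i) - i = l - i by omega]
      ring] at this
  · rw [zero_add, pow_one, hN, ← Module.End.mul_apply, hmul, LinearMap.sub_apply, hS, hnegT, hT,
      hw3, hv3, TensorProduct.tmul_zero, TensorProduct.zero_tmul, smul_zero, sub_zero, map_zero]
  · rw [pow_zero, Module.End.one_apply]
    intro hcon
    have h1 : G (v ⊗ₜ[Ω] w) = 0 := κ.injective (by rw [hcon, map_zero])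
    have h2 : (T ^ l) (G (v ⊗ₜ[Ω] w)) = (R.N ^ l) v ⊗ₜ[Ω] (R'.N ^ l) w := by
      rw [hGv, map_sum, Finset.sum_eq_single 0]
      · rw [pow_zero, one_smul, hT, pow_zero, Module.End.one_apply, Nat.sub_zero]
      · intro i _ hi
        rw [map_smul, hT, ← Module.End.mul_apply, ← pow_add]
        have : (R.N ^ (l + i)) v = 0 := by
          obtain ⟨j, rfl⟩ : ∃ j, i = j + 1 := ⟨i - 1, by omega⟩
          rw [show l + (j + 1) = j + (l + 1) by omega, pow_add, Module.End.mul_apply, hv3, map_zero]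
        rw [this, TensorProduct.zero_tmul, smul_zero]
      · intro h
        exact absurd (Finset.mem_range.2 (by omega)) h
    rw [h1, map_zero] at h2
    exact tmul_ne hv4 hw4 h2.symm

/-- An honest eigenvector in the kernel of `N`. -/
lemma Str.eigen (hR : R.IsCoh q) {m : ℕ} {α : Ω} (h : Str R m 0 α) :
    ∃ x ∈ R.gr m, x ≠ 0 ∧ R.N x = 0 ∧ R.F x = α • x := by
  obtain ⟨v, hv1, hv2, hv3, hv4⟩ := h
  rw [zero_add, pow_one] at hv3
  rw [pow_zero, Module.End.one_apply] at hv4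
  obtain ⟨y, hy, hy0, hyF⟩ := exists_eigen_of_gen (F := R.F) (S := R.gr m ⊓ LinearMap.ker R.N)
    (fun x hx => by
      refine Submodule.mem_inf.2 ⟨hR.F_gr m x (Submodule.mem_inf.1 hx).1, ?_⟩
      rw [LinearMap.mem_ker, hR.N_F, LinearMap.mem_ker.1 (Submodule.mem_inf.1 hx).2, map_zero,
        smul_zero])
    (Submodule.mem_inf.2 ⟨hv1, LinearMap.mem_ker.2 hv3⟩) hv2 hv4
  exact ⟨y, (Submodule.mem_inf.1 hy).1, hy0, LinearMap.mem_ker.1 (Submodule.mem_inf.1 hy).2, hyF⟩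

/-- An honest eigenvector. -/
lemma Str.eigen' (hR : R.IsCoh q) {m l : ℕ} {α : Ω} (h : Str R m l α) :
    ∃ x ∈ R.gr m, x ≠ 0 ∧ R.F x = α • x := by
  obtain ⟨v, hv1, hv2, -, hv4⟩ := h
  obtain ⟨y, hy, hy0, hyF⟩ := exists_eigen_of_gen (F := R.F) (S := R.gr m) (hR.F_gr m) hv1 hv2
    (by rintro rfl; exact hv4 (map_zero _))
  exact ⟨y, hy, hy0, hyF⟩

end Pool.Agent.V7H32.WM
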