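import Pool.Agent.V7H32.WM.Ops
import Pool.Agent.V7H32.WM.Defs
import Pool.Agent.Y141.MW.L

/-!
# Purity of products and of base changes; the kernel of `N`
-/

set_option autoImplicit false

open Module TensorProduct

namespace Pool.Agent.V7H32.WM

universe u v w

open Pool.Agent.H914 Pool.Agent.Y143 Pool.Agent.Y163.MW Pool.Agent.Y136.UB
open Pool.Agent.Y163.MW.Coh

variable {Ω : Type w} [Field Ω] [CharZero Ω] {R R' R'' : Coh.{v, w} Ω} {q : ℕ}

lemma mem_exc_of_eigen {m : ℕ} {α : Ω} {x : R.V} {w : ℤ} (hx : x ∈ R.gr m)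
    (hF : R.F x = α • x) (hw : IsWeilNumber q w α) : x ∈ R.exc q m (w - m) := by
  refine Submodule.mem_iSup_of_mem α (Submodule.mem_iSup_of_mem ?_ ?_)
  · rwa [show (m : ℤ) + (w - m) = w by ring]
  · exact Submodule.mem_inf.2 ⟨hx, gen_of_eigen hF⟩

/-- The weights on the kernel of `N` are not larger than the degree if the cohomology is pure. -/
lemma ker_weight [IsAlgClosed Ω] (hq : 1 < q) (hR : R.IsCoh q) {m : ℕ} (h : R.MWPure q m)
    {α : Ω} {x : R.V} {w : ℤ} (hx : x ∈ R.gr m) (hx0 : x ≠ 0) (hN : R.N x = 0)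
    (hF : R.F x = α • x) (hw : IsWeilNumber q w α) : w ≤ m := by
  by_contra hcon
  push Not at hcon
  obtain ⟨a, ha⟩ : ∃ a : ℕ, ((a + 1 : ℕ) : ℤ) = w - m := ⟨(w - m - 1).toNat, by omega⟩
  have h1 := mem_exc_of_eigen (q := q) hx hF hw
  rw [← ha] at h1
  rw [mwPure_iff hq hR] at h
  refine hx0 ((h (a + 1)).1 x h1 ?_)
  rw [pow_succ, Module.End.mul_apply, hN, map_zero]

/-- A basis adapted to a representation of `sl(2)` whose weights are the excesses. -/
lemma pure_of_adp [IsAlgClosed Ω] (hq : 1 < q) (hR : R.IsCoh q) {I : Type} [Fintype I] {a : I → ℤ}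
    (H : R.Adp q a a) : ∀ m, R.MWPure q m := by
  classical
  rw [← centred_tot_iff hq hR]
  obtain ⟨b, e, h, hs, hb⟩ := H
  have hgr : ∀ (r : ℤ) (x : R.V), x ∈ R.tot q r ↔ h x = (r : Ω) • x := by
    intro r x
    rw [gr_eq_span (indep_tot hq hR) b a hb r, b.mem_span_image]
    have hx : h x = ∑ i, (b.repr x i * (a i : Ω)) • b i := by
      conv_lhs => rw [← b.sum_repr x]
      rw [map_sum]
      refine Finset.sum_congr rfl fun i _ => ?_
      rw [map_smul, hs.wt, smul_smul]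
    constructor
    · intro hx'
      rw [hx]
      conv_rhs => rw [← b.sum_repr x]
      rw [Finset.smul_sum]
      refine Finset.sum_congr rfl fun i _ => ?_
      rw [smul_smul]
      by_cases h0 : b.repr x i = 0
      · rw [h0, zero_mul, mul_zero]
      · have := hx' (Finsupp.mem_support_iff.2 h0)
        rw [show a i = r from this, mul_comm]
    · intro hx' i hi
      have h0 := Finsupp.mem_support_iff.1 hi
      have h1 : b.repr (h x) i = (r : Ω) * b.repr x i := by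
        rw [hx', map_smul, Finsupp.smul_apply, smul_eq_mul]
      rw [hx] at h1
      have h2 := congrFun (b.repr_sum_self (fun i => b.repr x i * (a i : Ω))) i
      rw [h2, mul_comm] at h1
      have h3 := mul_right_cancel₀ h0 h1
      exact_mod_cast h3
  intro k
  have hL := Pool.Agent.Y141.MW.stL Ω R.V R.N I b a e h hs k
  refine ⟨fun x hx h0 => ?_, fun y hy => ?_⟩
  · refine hL.1 x ?_ h0
    have := (hgr k x).1 hx
    rwa [Int.cast_natCast] at this
  · have h1 := (hgr (-(k : ℤ)) y).1 hy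
    rw [Int.cast_neg, Int.cast_natCast] at h1
    obtain ⟨x, hx, hxy⟩ := hL.2 y h1
    refine ⟨x, (hgr k x).2 ?_, hxy⟩
    rwa [Int.cast_natCast]

/-- Products of pure cohomology. -/
lemma pure_prod [IsAlgClosed Ω] (hq : 1 < q) (hR : R.IsCoh q) (hR' : R'.IsCoh q)
    (hR'' : R''.IsCoh q) {κ : R.V ⊗[Ω] R'.V ≃ₗ[Ω] R''.V} (hκ : IsKunneth R R' R'' κ)
    (h : ∀ m, R.MWPure q m) (h' : ∀ m, R'.MWPure q m) : ∀ m, R''.MWPure q m := by
  classical
  obtain ⟨S⟩ := exists_strings hq hR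
  obtain ⟨S'⟩ := exists_strings hq hR'
  have e : S.wt = S.ct := by
    funext p
    unfold Strings.ct Strings.wt
    rw [(mw_iff hq hR S).1 h p.1]
  have e' : S'.wt = S'.ct := by
    funext p
    unfold Strings.ct Strings.wt
    rw [(mw_iff hq hR' S').1 h' p.1]
  have H := adp_strings S
  have H' := adp_strings S'
  rw [e] at H
  rw [e'] at H'
  exact pure_of_adp hq hR'' (H.prod H' (by omega) hκ)

omit [CharZero Ω] in
lemma IsBaseChange.frob {n : ℕ} {e : R.V ≃ₗ[Ω] R'.V} {c : Ω} (h : IsBaseChange n R R' e c)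
    (x : R.V) : R'.F (e x) = e ((R.F ^ n) x) := h.frobenius x

omit [CharZero Ω] in
lemma IsBaseChange.monodromy {n : ℕ} {e : R.V ≃ₗ[Ω] R'.V} {c : Ω} (h : IsBaseChange n R R' e c)
    (x : R.V) : R'.N (e x) = c • e (R.N x) := by
  have := h.mon x
  rw [LinearMap.smul_apply, map_smul] at this
  exact this

omit [CharZero Ω] in
lemma IsBaseChange.N_pow {n : ℕ} {e : R.V ≃ₗ[Ω] R'.V} {c : Ω} (h : IsBaseChange n R R' e c)
    (k : ℕ) (x : R.V) : (R'.N ^ k) (e x) = c ^ k • e ((R.N ^ k) x) := by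
  induction k generalizing x with
  | zero => simp
  | succ k ih =>
    rw [pow_succ, Module.End.mul_apply, pow_succ R.N, Module.End.mul_apply, h.monodromy, map_smul,
      ih, smul_smul, pow_succ, mul_comm]

lemma weil_base {n : ℕ} {w : ℤ} {α : Ω} (h : IsWeilNumber q w α) :
    IsWeilNumber (q ^ n) w (α ^ n) := by
  obtain ⟨h1, h2⟩ := h.pow n
  refine ⟨h1, fun z hz => ?_⟩
  rw [h2 z hz]
  push_cast
  rw [← Real.rpow_natCast, ← Real.rpow_mul (Nat.cast_nonneg q)]
  congr 1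
  ring

omit [CharZero Ω] in
lemma IsBaseChange.gen {n : ℕ} {e : R.V ≃ₗ[Ω] R'.V} {c : Ω} (h : IsBaseChange n R R' e c)
    {α : Ω} {x : R.V} (hx : x ∈ R.F.maxGenEigenspace α) : e x ∈ R'.F.maxGenEigenspace (α ^ n) :=
  gen_map e.toLinearMap (fun y => h.frob y) (gen_pow hx n)

/-- Strings and base change. -/
lemma Str.baseChange {n : ℕ} {e : R.V ≃ₗ[Ω] R'.V} {c : Ω} (h : IsBaseChange n R R' e c)
    {m l : ℕ} {α : Ω} (hs : Str R m l α) : Str R' m l (α ^ n) := by
  obtain ⟨v, hv1, hv2, hv3, hv4⟩ := hs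
  refine ⟨e v, h.degree m v hv1, h.gen hv2, ?_, ?_⟩
  · rw [h.N_pow, hv3, map_zero, smul_zero]
  · rw [h.N_pow]
    refine smul_ne_zero (pow_ne_zero _ h.ne) ?_
    intro h0
    exact hv4 (e.injective (by rw [h0, map_zero]))

/-- Families of subspaces and isomorphisms. -/
lemma exists_preimage {V V' : Type v} [AddCommGroup V] [Module Ω V] [AddCommGroup V']
    [Module Ω V'] (e : V ≃ₗ[Ω] V') {I : Type*} {B : I → Submodule Ω V} {A : I → Submodule Ω V'}
    (hB : ⨆ i, B i = ⊤) (hA : iSupIndep A) (h : ∀ i, ∀ x ∈ B i, e x ∈ A i) (i : I) :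
    ∀ y ∈ A i, ∃ x ∈ B i, e x = y := by
  classical
  intro y hy
  have hx : e.symm y ∈ ⨆ i, B i := hB ▸ Submodule.mem_top
  obtain ⟨f, hf, hfx⟩ := (Submodule.mem_iSup_iff_exists_finsupp _ _).1 hx
  rw [Finsupp.sum] at hfx
  have hfy : ∑ j ∈ insert i f.support, e (f j) = y := by
    rw [← Finset.sum_subset (Finset.subset_insert i f.support), ← map_sum, hfx,
      e.apply_symm_apply]
    intro j _ hj
    rw [Finsupp.notMem_support_iff.1 hj, map_zero]
  rw [iSupIndep_iff_finsetSum_eq_zero_imp_eq_zero] at hA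
  have h1 : ∑ j ∈ insert i f.support, (e (f j) - if j = i then y else 0) = 0 := by
    rw [Finset.sum_sub_distrib, Finset.sum_ite_eq' (insert i f.support) i (fun _ => y),
      if_pos (Finset.mem_insert_self i _), hfy, sub_self]
  have h2 := hA (insert i f.support) _ ?_ h1 i (Finset.mem_insert_self i _)
  · rw [if_pos rfl, sub_eq_zero] at h2
    exact ⟨f i, hf i, h2⟩
  · intro j _
    refine Submodule.sub_mem _ (h j _ (hf j)) ?_
    split_ifs with hj
    · rw [hj]
      exact hy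
    · exact Submodule.zero_mem _

/-- Purity of base changes. -/
lemma pure_baseChange [IsAlgClosed Ω] (hq : 1 < q) {n : ℕ} (hn : n ≠ 0) (hR : R.IsCoh q)
    (hR' : R'.IsCoh (q ^ n)) {e : R.V ≃ₗ[Ω] R'.V} {c : Ω} (h : IsBaseChange n R R' e c)
    (hp : ∀ m, R.MWPure q m) : ∀ m, R'.MWPure (q ^ n) m := by
  have hqn : 1 < q ^ n := Nat.one_lt_pow hn hq
  have hexc : ∀ (p : ℕ × ℤ), ∀ x ∈ R.exc q p.1 p.2, e x ∈ R'.exc (q ^ n) p.1 p.2 := by
    intro p
    have : R.exc q p.1 p.2 ≤ (R'.exc (q ^ n) p.1 p.2).comap e.toLinearMap := by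
      refine iSup₂_le fun α hα z hz => ?_
      refine Submodule.mem_iSup_of_mem (α ^ n) (Submodule.mem_iSup_of_mem (weil_base hα) ?_)
      exact Submodule.mem_inf.2 ⟨h.degree _ _ (Submodule.mem_inf.1 hz).1,
        h.gen (Submodule.mem_inf.1 hz).2⟩
    exact fun x hx => this hx
  have htop : ⨆ (p : ℕ × ℤ), R.exc q p.1 p.2 = ⊤ := by
    rw [eq_top_iff, ← hR.isInternal.submodule_iSup_eq_top]
    refine iSup_le fun m => ?_
    rw [← iSup_exc hR m]
    exact iSup_le fun c => le_iSup (fun p : ℕ × ℤ => R.exc q p.1 p.2) (m, c)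
  have hpre := exists_preimage e htop (indep_exc hqn hR') hexc
  intro m
  have hc := (mwPure_iff hq hR m).1 (hp m)
  rw [mwPure_iff hqn hR']
  intro a
  refine ⟨fun y hy h0 => ?_, fun y hy => ?_⟩
  · obtain ⟨x, hx, rfl⟩ := hpre (m, (a : ℤ)) y hy
    rw [h.N_pow] at h0
    have h1 : (R.N ^ a) x = 0 := by
      rcases smul_eq_zero.1 h0 with h2 | h2
      · exact absurd h2 (pow_ne_zero _ h.ne)
      · exact e.injective (by rw [h2, map_zero])
    rw [(hc a).1 x hx h1, map_zero]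
  · obtain ⟨x, hx, rfl⟩ := hpre (m, (-(a : ℤ))) y hy
    obtain ⟨z, hz, rfl⟩ := (hc a).2 x hx
    refine ⟨(c ^ a)⁻¹ • e z, Submodule.smul_mem _ _ (hexc (m, (a : ℤ)) z hz), ?_⟩
    rw [map_smul, h.N_pow, smul_smul, inv_mul_cancel₀ (pow_ne_zero _ h.ne), one_smul]

end Pool.Agent.V7H32.WM
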